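import Pool.Agent.J4H78.GP.Stm2
import Pool.Agent.J4H42.GP.Fld
import Pool.Agent.J4H57.GP.Zb

/-! # Project GP2, job HB: a crude upper bound for the class numbers of the fields `ℚ(√p)` -/

set_option autoImplicit false

open NumberField Complex Filter Topology MeasureTheory
open Pool.Agent.Y773 (VM cc LI zz Ov Ov_iff prime_of_Ov hasProd_LI)

namespace Pool.Agent.J4H74.GP

open Pool.Agent.J4H78.GP Pool.Agent.J4H57.GP

variable {L : Type} [Field L] [NumberField L]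

/-- number of the prime ideals above `p` -/
theorem card_Ov' (hL : Module.finrank ℚ L = 2) (p : Nat.Primes) :
    (Ov L p).Finite ∧ (Ov L p).ncard ≤ 2 := by
  have hp := p.2
  have hmax : (Ideal.span {((p : ℕ) : ℤ)}).IsMaximal :=
    PrincipalIdealRing.isMaximal_of_irreducible (Nat.prime_iff_prime_int.mp hp).irreducible
  have h0 : Ideal.span {((p : ℕ) : ℤ)} ≠ ⊥ := by
    rw [Ne, Ideal.span_singleton_eq_bot]
    exact_mod_cast hp.ne_zero
  have h1 : Ov L p = (IsDedekindDomain.primesOverFinset (Ideal.span {((p : ℕ) : ℤ)}) (𝓞 L) : Set _) := by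
    ext 𝔭
    rw [Finset.mem_coe]
    rw [IsDedekindDomain.mem_primesOverFinset_iff h0]
    constructor
    · intro h
      exact (Ov_iff hp (prime_of_Ov hp h)).1 h
    · intro h
      have hpr : Prime 𝔭 := by
        refine Ideal.prime_of_isPrime ?_ h.1
        have := h.2
        rintro rfl
        exact Ideal.ne_bot_of_liesOver_of_ne_bot (P := (⊥ : Ideal (𝓞 L))) h0 rfl
      exact (Ov_iff hp hpr).2 h
  rw [h1]
  refine ⟨Finset.finite_toSet _, ?_⟩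
  rw [Set.ncard_coe_finset]
  have := Ideal.card_primesOverFinset_le_finrank (p := Ideal.span {((p : ℕ) : ℤ)}) (S := 𝓞 L)
    (K := ℚ) (L := L) h0
  rw [hL] at this
  exact this

theorem local_le' (hL : Module.finrank ℚ L = 2) (p : Nat.Primes) :
    ‖(∏ᶠ 𝔭 ∈ Ov L p, (1 - zz (triv L) 2 𝔭))⁻¹‖ ≤ ‖(1 - ((p : ℕ) : ℂ) ^ (-(2 : ℂ)))⁻¹‖ ^ 2 := by
  classical
  obtain ⟨hfin, hcard⟩ := card_Ov' hL p
  have hp1 : (1 : ℝ) < ((p : ℕ) : ℝ) := by exact_mod_cast p.2.one_lt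
  set r : ℝ := 1 - ((p : ℕ) : ℝ) ^ (-2 : ℝ) with hr
  have hq : ((p : ℕ) : ℝ) ^ (-2 : ℝ) < 1 := Real.rpow_lt_one_of_one_lt_of_neg hp1 (by norm_num)
  have hq0 : 0 < ((p : ℕ) : ℝ) ^ (-2 : ℝ) := Real.rpow_pos_of_pos (by linarith) _
  have hr0 : 0 < r := by rw [hr]; linarith
  have hr1 : r ≤ 1 := by rw [hr]; linarith
  have e1 : (1 - ((p : ℕ) : ℂ) ^ (-(2 : ℂ))) = (r : ℂ) := by
    have : ((p : ℕ) : ℂ) ^ (-(2 : ℂ)) = ((((p : ℕ) : ℝ) ^ (-2 : ℝ) : ℝ) : ℂ) := by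
      rw [Complex.ofReal_cpow (by linarith)]
      push_cast
      rfl
    rw [this, hr]
    push_cast
    rfl
  have e2 : ‖(1 - ((p : ℕ) : ℂ) ^ (-(2 : ℂ)))⁻¹‖ = r⁻¹ := by
    rw [e1, norm_inv, Complex.norm_real, Real.norm_of_nonneg hr0.le]
  rw [e2, norm_inv, inv_pow]
  rw [finprod_mem_eq_finite_toFinset_prod _ hfin, norm_prod]
  have h1 : r ^ 2 ≤ ∏ 𝔭 ∈ hfin.toFinset, ‖1 - zz (triv L) 2 𝔭‖ := by
    calc r ^ 2 ≤ r ^ hfin.toFinset.card := by
          apply pow_le_pow_of_le_one hr0.le hr1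
          rwa [← Set.ncard_eq_toFinset_card _ hfin]
      _ = ∏ 𝔭 ∈ hfin.toFinset, r := by rw [Finset.prod_const]
      _ ≤ _ := by
          refine Finset.prod_le_prod (fun _ _ => hr0.le) fun 𝔭 h𝔭 => ?_
          rw [Set.Finite.mem_toFinset] at h𝔭
          have hpr := prime_of_Ov p.2 h𝔭
          have hN := le_norm p h𝔭
          have h2 : ‖zz (triv L) 2 𝔭‖ ≤ ((p : ℕ) : ℝ) ^ (-2 : ℝ) := by
            unfold zz
            rw [norm_mul, Complex.norm_natCast_cpow_of_pos (by have := p.2.pos; omega), two_re]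
            calc ‖triv L 𝔭‖ * (Ideal.absNorm 𝔭 : ℝ) ^ (-2 : ℝ)
                ≤ 1 * (Ideal.absNorm 𝔭 : ℝ) ^ (-2 : ℝ) :=
                  mul_le_mul_of_nonneg_right (norm_triv _) (by positivity)
              _ = (Ideal.absNorm 𝔭 : ℝ) ^ (-2 : ℝ) := one_mul _
              _ ≤ _ := Real.rpow_le_rpow_of_nonpos (by linarith) (by exact_mod_cast hN) (by norm_num)
          calc r = 1 - ((p : ℕ) : ℝ) ^ (-2 : ℝ) := rfl
            _ ≤ ‖(1 : ℂ)‖ - ‖zz (triv L) 2 𝔭‖ := by rw [norm_one]; linarith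
            _ ≤ ‖1 - zz (triv L) 2 𝔭‖ := norm_sub_norm_le _ _
  exact inv_anti₀ (by positivity) h1

theorem LI_le' (hL : Module.finrank ℚ L = 2) : ‖LI (triv L) 2‖ ≤ ‖riemannZeta 2‖ ^ 2 := by
  have h1 := hasProd_LI (ψ := triv L) norm_triv (s := 2) (by norm_num)
  have h2 := riemannZeta_eulerProduct_hasProd (s := 2) (by norm_num)
  have h3 := (continuous_norm.tendsto _).comp h1
  have h4 := ((continuous_norm.tendsto _).comp h2).pow 2
  refine le_of_tendsto_of_tendsto' h3 h4 fun S => ?_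
  simp only [Function.comp_apply]
  rw [norm_prod, norm_prod, ← Finset.prod_pow]
  exact Finset.prod_le_prod (fun _ _ => norm_nonneg _) fun p _ => local_le' hL p

/-- the Dedekind zeta function at 2, uniformly in degree two -/
theorem zb2 (hL : Module.finrank ℚ L = 2) :
    (Summable fun 𝔞 : {𝔞 : Ideal (𝓞 L) // 𝔞 ≠ ⊥} => (Ideal.absNorm 𝔞.1 : ℝ) ^ (-2 : ℝ)) ∧
    ∑' 𝔞 : {𝔞 : Ideal (𝓞 L) // 𝔞 ≠ ⊥}, (Ideal.absNorm 𝔞.1 : ℝ) ^ (-2 : ℝ) ≤
      ‖riemannZeta 2‖ ^ 2 := by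
  have hs : Summable fun 𝔞 : {𝔞 : Ideal (𝓞 L) // 𝔞 ≠ ⊥} =>
      (Ideal.absNorm 𝔞.1 : ℝ) ^ (-2 : ℝ) := by
    have h1 := Pool.Agent.Y772.DK.term_summable (a := fun 𝔞 => triv L 𝔞) (map_zero (triv L))
      norm_triv (s := 2) (by norm_num)
    have h2 := h1.comp_injective (i := fun 𝔞 : {𝔞 : Ideal (𝓞 L) // 𝔞 ≠ ⊥} => 𝔞.1)
      Subtype.val_injective
    refine h2.congr fun 𝔞 => ?_
    simp only [Function.comp_apply]
    rw [term_eq 𝔞.2, Complex.norm_real, Real.norm_of_nonneg (by positivity)]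
  refine ⟨hs, ?_⟩
  have h1 : ((∑' 𝔞 : {𝔞 : Ideal (𝓞 L) // 𝔞 ≠ ⊥}, (Ideal.absNorm 𝔞.1 : ℝ) ^ (-2 : ℝ) : ℝ) : ℂ) =
      LI (triv L) 2 := by
    rw [Complex.ofReal_tsum]
    unfold LI
    rw [← tsum_subtype_eq_of_support_subset (s := {𝔞 : Ideal (𝓞 L) | 𝔞 ≠ ⊥})]
    · refine tsum_congr fun 𝔞 => ?_
      exact (term_eq 𝔞.2).symm
    · intro 𝔞 h𝔞
      rw [Function.mem_support] at h𝔞
      rintro rfl
      apply h𝔞
      have : triv L ⊥ = 0 := map_zero _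
      rw [this, zero_mul]
  have h2 : ∑' 𝔞 : {𝔞 : Ideal (𝓞 L) // 𝔞 ≠ ⊥}, (Ideal.absNorm 𝔞.1 : ℝ) ^ (-2 : ℝ) =
      ‖LI (triv L) 2‖ := by
    rw [← h1, Complex.norm_real, Real.norm_of_nonneg (tsum_nonneg fun _ => by positivity)]
  rw [h2]
  exact LI_le' hL

/-- the discriminant -/
theorem discr_le {p : ℕ} (hp : p.Prime) (hK : QD p L) : |(discr L : ℝ)| ≤ 4 * (p : ℝ) := by
  obtain ⟨s, hs⟩ := hK.root
  obtain ⟨b, b0, b1⟩ := Pool.Agent.J4H42.GP.quad_basis hK.deg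
    (Pool.Agent.J4H42.GP.quad_ne hp hs)
  obtain ⟨S, hS, -⟩ := Pool.Agent.J4H42.GP.exists_intRoot hs
  have ts : Algebra.trace ℚ L s = 0 := by
    rw [Algebra.trace_eq_matrix_trace b, Matrix.trace_fin_two, Algebra.leftMulMatrix_eq_repr_mul,
      Algebra.leftMulMatrix_eq_repr_mul, b0, b1, mul_one, ← b1, b1, ← sq, hs]
    have e1 : (p : L) = (p : ℚ) • b 0 := by
      rw [b0, Algebra.smul_def, mul_one, map_natCast]
    rw [e1, ← b1, map_smul, Module.Basis.repr_self, Module.Basis.repr_self]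
    simp
  have t1 : Algebra.trace ℚ L (1 : L) = 2 := by
    have := Algebra.trace_algebraMap (R := ℚ) (S := L) (1 : ℚ)
    rw [map_one, hK.deg] at this
    rw [this]
    norm_num
  have tp : Algebra.trace ℚ L (p : L) = 2 * p := by
    have := Algebra.trace_algebraMap (R := ℚ) (S := L) (p : ℚ)
    rw [map_natCast, hK.deg] at this
    rw [this]
    norm_num
  have hdisc : Algebra.discr ℚ (b : Fin 2 → L) = 4 * p := by
    rw [Algebra.discr_def, Matrix.det_fin_two]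
    simp only [Algebra.traceMatrix_apply, Algebra.traceForm_apply]
    rw [b0, b1, mul_one, mul_one, one_mul, ts, t1, ← sq, hs, tp]
    ring
  have h := Pool.Agent.J4H42.GP.discr_le_basis b ![1, S] (by
    intro i
    fin_cases i
    · simp [b0]
    · simpa [b1] using hS)
  rw [hdisc] at h
  refine h.trans ?_
  push_cast
  rw [abs_of_nonneg (by positivity)]

/-- every class contains an ideal of norm at most `√|discr|` -/
theorem exists_small (hL : Module.finrank ℚ L = 2) (c : ClassGroup (𝓞 L)) :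
    ∃ I : nonZeroDivisors (Ideal (𝓞 L)), ClassGroup.mk0 I = c ∧
      (Ideal.absNorm (I : Ideal (𝓞 L)) : ℝ) ^ 2 ≤ |(discr L : ℝ)| := by
  obtain ⟨I, hI, hle⟩ := NumberField.exists_ideal_in_class_of_norm_le c
  refine ⟨I, hI, ?_⟩
  rw [hL] at hle
  have hcp : InfinitePlace.nrComplexPlaces L ≤ 1 := by
    have := InfinitePlace.card_add_two_mul_card_eq_rank L
    rw [hL] at this
    omega
  have hpow : (4 / Real.pi) ^ InfinitePlace.nrComplexPlaces L ≤ 2 := by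
    have h1 : (1 : ℝ) ≤ 4 / Real.pi := by
      rw [le_div_iff₀ Real.pi_pos]
      linarith [Real.pi_le_four]
    have h2 : 4 / Real.pi ≤ 2 := by
      rw [div_le_iff₀ Real.pi_pos]
      linarith [Real.pi_gt_three]
    calc (4 / Real.pi) ^ InfinitePlace.nrComplexPlaces L ≤ (4 / Real.pi) ^ 1 :=
          pow_le_pow_right₀ h1 hcp
      _ ≤ 2 := by rw [pow_one]; exact h2
  have h3 : (Ideal.absNorm (I : Ideal (𝓞 L)) : ℝ) ≤ Real.sqrt |(discr L : ℝ)| := by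
    refine hle.trans ?_
    have h4 := Real.sqrt_nonneg |(discr L : ℝ)|
    have h5 : (((2 : ℕ).factorial : ℕ) : ℝ) / ((2 : ℕ) : ℝ) ^ 2 = 1 / 2 := by
      norm_num [Nat.factorial]
    rw [h5]
    nlinarith
  calc (Ideal.absNorm (I : Ideal (𝓞 L)) : ℝ) ^ 2 ≤ (Real.sqrt |(discr L : ℝ)|) ^ 2 :=
        pow_le_pow_left₀ (Nat.cast_nonneg _) h3 2
    _ = |(discr L : ℝ)| := Real.sq_sqrt (abs_nonneg _)

theorem t_HB : S_HB := by
  obtain ⟨C, hC⟩ : ∃ C : ℝ, C = ‖riemannZeta 2‖ ^ 2 + 1 := ⟨_, rfl⟩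
  have hC0 : 0 < C := by rw [hC]; positivity
  refine ⟨4 * C, by positivity, fun p K _ _ hp hK => ?_⟩
  obtain ⟨hsum, hle⟩ := zb2 hK.deg
  have hd := discr_le hp hK
  choose I hI1 hI2 using exists_small hK.deg
  have hne : ∀ c, (I c : Ideal (𝓞 K)) ≠ ⊥ := fun c => nonZeroDivisors.coe_ne_zero (I c)
  let J : ClassGroup (𝓞 K) → {𝔞 : Ideal (𝓞 K) // 𝔞 ≠ ⊥} := fun c => ⟨I c, hne c⟩
  have hJ : Function.Injective J := by
    intro c c' h
    have h1 : (J c).1 = (J c').1 := by rw [h]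
    have h1' : (I c : Ideal (𝓞 K)) = I c' := h1
    rw [← hI1 c, ← hI1 c', Subtype.ext h1']
  have hsum' := hsum.comp_injective hJ
  have h1 : ∑' c : ClassGroup (𝓞 K), (Ideal.absNorm (J c).1 : ℝ) ^ (-2 : ℝ) ≤ C := by
    refine le_trans ?_ (hle.trans (by rw [hC]; linarith))
    exact tsum_comp_le_tsum_of_inj hsum (fun _ => by positivity) hJ
  rw [tsum_fintype] at h1
  have hp1 : (1 : ℝ) ≤ p := by exact_mod_cast hp.one_lt.le
  have hp0 : (0 : ℝ) < 4 * p := by linarith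
  have h2 : ∀ c : ClassGroup (𝓞 K), 1 / (4 * (p : ℝ)) ≤ (Ideal.absNorm (J c).1 : ℝ) ^ (-2 : ℝ) := by
    intro c
    have h3 : (0 : ℝ) < (Ideal.absNorm (I c : Ideal (𝓞 K)) : ℝ) := by
      have := Ideal.absNorm_ne_zero_of_nonZeroDivisors (I c)
      exact_mod_cast Nat.pos_of_ne_zero this
    show 1 / (4 * (p : ℝ)) ≤ (Ideal.absNorm (I c : Ideal (𝓞 K)) : ℝ) ^ (-2 : ℝ)
    rw [Real.rpow_neg h3.le, one_div]
    refine inv_anti₀ (by positivity) ?_
    have h4 := (hI2 c).trans hd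
    rwa [← Real.rpow_natCast] at h4
  have h5 : (Fintype.card (ClassGroup (𝓞 K)) : ℝ) * (1 / (4 * (p : ℝ))) ≤ C := by
    refine le_trans ?_ h1
    calc (Fintype.card (ClassGroup (𝓞 K)) : ℝ) * (1 / (4 * (p : ℝ)))
        = ∑ c : ClassGroup (𝓞 K), 1 / (4 * (p : ℝ)) := by
          rw [Finset.sum_const, Finset.card_univ, nsmul_eq_mul]
      _ ≤ _ := Finset.sum_le_sum fun c _ => h2 c
  rw [Nat.card_eq_fintype_card]
  rw [mul_one_div, div_le_iff₀ hp0] at h5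
  refine h5.trans ?_
  nlinarith

end Pool.Agent.J4H74.GP
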