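import Mathlib

set_option autoImplicit false

/-! # Project GP2, job MIX: products of group elements and characters -/

open Finset

namespace Pool.Agent.J4H74.GP

section

variable (G : Type) [CommGroup G] [Finite G]

theorem finite_chars : Finite (G →* ℂˣ) :=
  Finite.of_equiv G (CommGroup.monoidHom_mulEquiv_of_hasEnoughRootsOfUnity G ℂ).some.symm.toEquiv

variable {G}

theorem norm_char (χ : G →* ℂˣ) (g : G) : ‖((χ g : ℂˣ) : ℂ)‖ = 1 := by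
  have h1 : ((χ g : ℂˣ) : ℂ) ^ Nat.card G = 1 := by
    rw [← Units.val_pow_eq_pow_val, ← map_pow, pow_card_eq_one', map_one, Units.val_one]
  exact Complex.norm_eq_one_of_pow_eq_one h1 Nat.card_pos.ne'

theorem orth [Fintype (G →* ℂˣ)] [DecidableEq G] (g : G) :
    ∑ χ : G →* ℂˣ, ((χ g : ℂˣ) : ℂ) = if g = 1 then (Nat.card G : ℂ) else 0 := by
  split_ifs with h
  · subst h
    simp only [map_one, Units.val_one, sum_const, card_univ, nsmul_eq_mul, mul_one]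
    rw [← Nat.card_eq_fintype_card, CommGroup.card_monoidHom_of_hasEnoughRootsOfUnity G ℂ]
  · obtain ⟨φ, hφ⟩ := CommGroup.exists_apply_ne_one_of_hasEnoughRootsOfUnity G ℂ h
    have h1 : ((φ g : ℂˣ) : ℂ) * ∑ χ : G →* ℂˣ, ((χ g : ℂˣ) : ℂ) =
        ∑ χ : G →* ℂˣ, ((χ g : ℂˣ) : ℂ) := by
      rw [mul_sum]
      conv_rhs => rw [← Equiv.sum_comp (Equiv.mulLeft φ)]
      refine sum_congr rfl fun χ _ => ?_
      simp [MonoidHom.mul_apply]
    have h2 : (((φ g : ℂˣ) : ℂ) - 1) * ∑ χ : G →* ℂˣ, ((χ g : ℂˣ) : ℂ) = 0 := by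
      rw [sub_mul, h1, one_mul, sub_self]
    rcases mul_eq_zero.1 h2 with h3 | h3
    · exfalso
      apply hφ
      apply Units.ext
      rw [Units.val_one]
      exact sub_eq_zero.1 h3
    · exact h3

end

theorem mix_core (G : Type) [CommGroup G] [Finite G] (I : Type) [Fintype I] (c : I → G) (T : ℝ)
    (hT : 0 ≤ T) (h : ∀ χ : G →* ℂˣ, χ ≠ 1 → ‖∑ i, ((χ (c i) : ℂˣ) : ℂ)‖ ≤ T) (m : ℕ) (z : G) :
    |(Nat.card G : ℝ) * (Nat.card {f : Fin m → I // ∏ j, c (f j) = z} : ℝ) -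
      (Fintype.card I : ℝ) ^ m| ≤ (Nat.card G : ℝ) * T ^ m := by
  classical
  have := finite_chars G
  have : Fintype (G →* ℂˣ) := Fintype.ofFinite _
  -- expansion of the powers
  have e1 : ∀ χ : G →* ℂˣ, ((χ z⁻¹ : ℂˣ) : ℂ) * (∑ i, ((χ (c i) : ℂˣ) : ℂ)) ^ m =
      ∑ f : Fin m → I, ((χ (z⁻¹ * ∏ j, c (f j)) : ℂˣ) : ℂ) := by
    intro χ
    rw [Fintype.sum_pow, mul_sum]
    refine sum_congr rfl fun f _ => ?_
    rw [map_mul, map_prod, Units.val_mul, Units.coe_prod]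
  have e2 : ∑ χ : G →* ℂˣ, ((χ z⁻¹ : ℂˣ) : ℂ) * (∑ i, ((χ (c i) : ℂˣ) : ℂ)) ^ m =
      (Nat.card G : ℂ) * (Nat.card {f : Fin m → I // ∏ j, c (f j) = z} : ℂ) := by
    calc ∑ χ : G →* ℂˣ, ((χ z⁻¹ : ℂˣ) : ℂ) * (∑ i, ((χ (c i) : ℂˣ) : ℂ)) ^ m
        = ∑ χ : G →* ℂˣ, ∑ f : Fin m → I, ((χ (z⁻¹ * ∏ j, c (f j)) : ℂˣ) : ℂ) :=
          sum_congr rfl fun χ _ => e1 χ
      _ = ∑ f : Fin m → I, ∑ χ : G →* ℂˣ, ((χ (z⁻¹ * ∏ j, c (f j)) : ℂˣ) : ℂ) := sum_comm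
      _ = ∑ f : Fin m → I, if z⁻¹ * ∏ j, c (f j) = 1 then (Nat.card G : ℂ) else 0 :=
          sum_congr rfl fun f _ => orth _
      _ = (Nat.card G : ℂ) * (Nat.card {f : Fin m → I // ∏ j, c (f j) = z} : ℂ) := by
          rw [← sum_filter, sum_const, nsmul_eq_mul, mul_comm,
            Nat.card_eq_fintype_card (α := {f : Fin m → I // ∏ j, c (f j) = z}),
            Fintype.card_subtype]
          congr 3
          ext f
          simp only [mem_filter, mem_univ, true_and]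
          rw [inv_mul_eq_one]
          exact eq_comm
  have e3 : ((Nat.card G : ℝ) * (Nat.card {f : Fin m → I // ∏ j, c (f j) = z} : ℝ) -
      (Fintype.card I : ℝ) ^ m : ℂ) =
      ∑ χ ∈ (univ : Finset (G →* ℂˣ)).erase 1,
        ((χ z⁻¹ : ℂˣ) : ℂ) * (∑ i, ((χ (c i) : ℂˣ) : ℂ)) ^ m := by
    have h1 := add_sum_erase (univ : Finset (G →* ℂˣ))
      (fun χ => ((χ z⁻¹ : ℂˣ) : ℂ) * (∑ i, ((χ (c i) : ℂˣ) : ℂ)) ^ m) (mem_univ 1)
    rw [e2] at h1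
    simp only [MonoidHom.one_apply, Units.val_one, one_mul, sum_const, card_univ, nsmul_eq_mul,
      mul_one] at h1
    push_cast
    rw [← h1]
    ring
  have e4 : |(Nat.card G : ℝ) * (Nat.card {f : Fin m → I // ∏ j, c (f j) = z} : ℝ) -
      (Fintype.card I : ℝ) ^ m| = ‖∑ χ ∈ (univ : Finset (G →* ℂˣ)).erase 1,
        ((χ z⁻¹ : ℂˣ) : ℂ) * (∑ i, ((χ (c i) : ℂˣ) : ℂ)) ^ m‖ := by
    rw [← e3, ← Real.norm_eq_abs, ← Complex.norm_real]
    push_cast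
    rfl
  rw [e4]
  refine (norm_sum_le _ _).trans ?_
  calc ∑ χ ∈ (univ : Finset (G →* ℂˣ)).erase 1,
        ‖((χ z⁻¹ : ℂˣ) : ℂ) * (∑ i, ((χ (c i) : ℂˣ) : ℂ)) ^ m‖
      ≤ ∑ χ ∈ (univ : Finset (G →* ℂˣ)).erase 1, T ^ m := by
        refine sum_le_sum fun χ hχ => ?_
        rw [norm_mul, norm_char, one_mul, norm_pow]
        exact pow_le_pow_left₀ (norm_nonneg _) (h χ (ne_of_mem_erase hχ)) m
    _ ≤ ∑ χ : G →* ℂˣ, T ^ m :=
        sum_le_sum_of_subset_of_nonneg (erase_subset _ _) fun _ _ _ => by positivity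
    _ = (Nat.card G : ℝ) * T ^ m := by
        rw [sum_const, card_univ, nsmul_eq_mul, ← Nat.card_eq_fintype_card,
          CommGroup.card_monoidHom_of_hasEnoughRootsOfUnity G ℂ]

end Pool.Agent.J4H74.GP
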