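import Pool.Agent.J4H78.GP.Stm2
import Pool.Agent.J4H74.GP.Mix0

/-! # Project GP2, job MIX -/

set_option autoImplicit false

namespace Pool.Agent.J4H74.GP

theorem t_MIX : Pool.Agent.J4H78.GP.S_MIX := by
  intro G _ _ I _ c T hT h m z
  exact mix_core G I c T hT h m z

end Pool.Agent.J4H74.GP
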